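import Pool.Agent.Helper21.SB.Stmt
import Pool.Agent.Helper21.CT.G

/-!
# Project SBF: signature induction over an arbitrary number field, definitions
-/

namespace SB

/-- The absolute Galois group of the number field `F`. -/
abbrev GF (F : IntermediateField ℚ Qb) : Type := (F.fixingSubgroup : Subgroup GQ)

/-- The complex conjugations over `F`. -/
def CF (F : IntermediateField ℚ Qb) : Set (GF F) := {c | (c : GQ) ∈ CC}

/-- The open normal subgroups of the absolute Galois group of `F`. -/
def NF (F : IntermediateField ℚ Qb) : Set (Subgroup (GF F)) := {M | M.Normal ∧ IsOpen (M : Set (GF F))}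

/-- Those with solvable quotient. -/
def NFSol (F : IntermediateField ℚ Qb) : Set (Subgroup (GF F)) :=
  {M | M ∈ NF F ∧ ∃ _ : M.Normal, Group.IsSolvable (GF F ⧸ M)}

/-- Those with nilpotent quotient. -/
def NFNil (F : IntermediateField ℚ Qb) : Set (Subgroup (GF F)) :=
  {M | M ∈ NF F ∧ ∃ _ : M.Normal, Group.IsNilpotent (GF F ⧸ M)}

theorem galIn_mul (F : IntermediateField ℚ Qb) (K : IntermediateField F Qb) {a b : GF F}
    (ha : ∀ x ∈ K, (a : GQ) x = x) (hb : ∀ x ∈ K, (b : GQ) x = x) : ∀ x ∈ K, ((a * b : GF F) : GQ) x = x := by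
  intro x hx
  change (a : GQ) ((b : GQ) x) = x
  rw [hb x hx, ha x hx]

theorem galIn_inv (F : IntermediateField ℚ Qb) (K : IntermediateField F Qb) {a : GF F}
    (ha : ∀ x ∈ K, (a : GQ) x = x) : ∀ x ∈ K, ((a⁻¹ : GF F) : GQ) x = x := by
  intro x hx
  change (a : GQ).symm x = x
  rw [AlgEquiv.symm_apply_eq, ha x hx]

/-- The elements fixing `K`. -/
def galIn (F : IntermediateField ℚ Qb) (K : IntermediateField F Qb) : Subgroup (GF F) where
  carrier := {g | ∀ x ∈ K, (g : GQ) x = x}
  mul_mem' := galIn_mul F K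
  one_mem' := fun _ _ => rfl
  inv_mem' := galIn_inv F K

/-- Representatives of the classes. -/
def IsRep {Γ : Type*} [Group Γ] (S : Set Γ) {r : ℕ} (c : Fin r → Γ) : Prop :=
  (∀ i, c i ∈ S) ∧ ∀ s ∈ S, ∃! i, ∃ g, s = g * c i * g⁻¹

end SB
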