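import Pool.Agent.Helper21.SBF.Base

/-!
# SBF-1: the systems of open normal subgroups of the absolute Galois group of a number field
-/

set_option autoImplicit false

namespace SB

section Gen

variable {G : Type*} [Group G]

private noncomputable def prF (M M' : Subgroup G) [M.Normal] [M'.Normal]
    [(M ⊓ M').Normal] : G ⧸ (M ⊓ M') →* (G ⧸ M) × (G ⧸ M') :=
  QuotientGroup.lift (M ⊓ M') ((QuotientGroup.mk' M).prod (QuotientGroup.mk' M')) (by
    intro x hx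
    change ((x : G ⧸ M), (x : G ⧸ M')) = 1
    rw [(QuotientGroup.eq_one_iff x).2 hx.1, (QuotientGroup.eq_one_iff x).2 hx.2]
    rfl)

private theorem prF_inj (M M' : Subgroup G) [M.Normal] [M'.Normal]
    [(M ⊓ M').Normal] : Function.Injective (prF M M') := by
  rw [injective_iff_map_eq_one]
  intro x hx
  obtain ⟨g, rfl⟩ := QuotientGroup.mk_surjective x
  have h1 : ((g : G ⧸ M), (g : G ⧸ M')) = 1 := hx
  rw [QuotientGroup.eq_one_iff]
  exact ⟨(QuotientGroup.eq_one_iff g).1 (congrArg Prod.fst h1),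
    (QuotientGroup.eq_one_iff g).1 (congrArg Prod.snd h1)⟩

private theorem solExt (M M' : Subgroup G) [M.Normal] [M'.Normal] (hs : Group.IsSolvable (G ⧸ M)) (hle : M' ≤ M)
    (hc : ∀ a ∈ M, ∀ b ∈ M, a * b * a⁻¹ * b⁻¹ ∈ M') : Group.IsSolvable (G ⧸ M') := by
  let N : Subgroup (G ⧸ M') := M.map (QuotientGroup.mk' M')
  have hN : Group.IsSolvable N := by
    refine Group.isSolvable_of_comm ?_
    rintro ⟨_, a, ha, rfl⟩ ⟨_, b, hb, rfl⟩
    apply Subtype.ext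
    change ((a * b : G) : G ⧸ M') = ((b * a : G) : G ⧸ M')
    rw [eq_comm, QuotientGroup.eq]
    have h1 := hc a⁻¹ (M.inv_mem ha) b⁻¹ (M.inv_mem hb)
    have h2 : (b * a)⁻¹ * (a * b) = a⁻¹ * b⁻¹ * a⁻¹⁻¹ * b⁻¹⁻¹ := by group
    rw [h2]
    exact h1
  refine Group.isSolvable_of_ker_le_range N.subtype (QuotientGroup.map M' M (MonoidHom.id G) hle) ?_
  intro x hx
  obtain ⟨g, rfl⟩ := QuotientGroup.mk_surjective x
  have h1 : ((g : G) : G ⧸ M) = 1 := hx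
  have h2 : g ∈ M := (QuotientGroup.eq_one_iff g).1 h1
  exact ⟨⟨_, g, h2, rfl⟩, rfl⟩

end Gen

variable (F : IntermediateField ℚ Qb)

private theorem nF_inf {M M' : Subgroup (GF F)} (h : M ∈ NF F) (h' : M' ∈ NF F) : M ⊓ M' ∈ NF F := by
  obtain ⟨h1, h2⟩ := h
  obtain ⟨h3, h4⟩ := h'
  refine ⟨inferInstance, ?_⟩
  rw [Subgroup.coe_inf]
  exact h2.inter h4

private theorem nFSol_inf {M M' : Subgroup (GF F)} (h : M ∈ NFSol F) (h' : M' ∈ NFSol F) :
    M ⊓ M' ∈ NFSol F := by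
  obtain ⟨hM, hMn, hMs⟩ := h
  obtain ⟨hM', hMn', hMs'⟩ := h'
  have hI := nF_inf F hM hM'
  have hIn : (M ⊓ M').Normal := hI.1
  exact ⟨hI, hIn, Group.isSolvable_of_isSolvable_injective (prF_inj M M')⟩

private theorem nFNil_inf {M M' : Subgroup (GF F)} (h : M ∈ NFNil F) (h' : M' ∈ NFNil F) :
    M ⊓ M' ∈ NFNil F := by
  obtain ⟨hM, hMn, hMs⟩ := h
  obtain ⟨hM', hMn', hMs'⟩ := h'
  have hI := nF_inf F hM hM'
  have hIn : (M ⊓ M').Normal := hI.1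
  exact ⟨hI, hIn, (Group.isNilpotent_congr (MonoidHom.ofInjective (prF_inj M M'))).2 inferInstance⟩

private theorem open_F (hF : FiniteDimensional ℚ F) : IsOpen (F.fixingSubgroup : Set GQ) :=
  IntermediateField.fixingSubgroup_isOpen F

private theorem map_open (hF : FiniteDimensional ℚ F) {M : Subgroup (GF F)} (hM : IsOpen (M : Set (GF F))) :
    IsOpen ((M.map F.fixingSubgroup.subtype : Subgroup GQ) : Set GQ) := by
  rw [Subgroup.coe_map]
  exact (open_F F hF).isOpenEmbedding_subtypeVal.isOpenMap _ hM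

private theorem below (hF : FiniteDimensional ℚ F) {M : Subgroup (GF F)} (hM : M ∈ NF F) :
    ∃ M₀ ∈ NAll, ∀ g ∈ M₀, ∃ h : g ∈ F.fixingSubgroup, (⟨g, h⟩ : GF F) ∈ M := by
  obtain ⟨M₀, h0, hle⟩ := open_nAll (map_open F hF hM.2)
  refine ⟨M₀, h0, fun g hg => ?_⟩
  obtain ⟨y, hy, rfl⟩ := hle hg
  exact ⟨y.2, hy⟩

private theorem nF_fin (hF : FiniteDimensional ℚ F) {M : Subgroup (GF F)} (hM : M ∈ NF F) : M.FiniteIndex := by
  obtain ⟨M₀, h0, hle⟩ := below F hF hM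
  have : M₀.FiniteIndex := nAll_fin h0
  have h2 : (M₀.subgroupOf F.fixingSubgroup) ≤ M := by
    intro g hg
    rw [Subgroup.mem_subgroupOf] at hg
    obtain ⟨_, h⟩ := hle g hg
    exact h
  exact Subgroup.finiteIndex_of_le h2

private theorem sqZ (y : ℤˣ) : y * y = 1 := by
  rcases Int.units_eq_one_or y with rfl | rfl <;> rfl

theorem ntF_all (hF : FiniteDimensional ℚ F) {M : Subgroup (GF F)} (hM : M ∈ NF F) (U : Subgroup (GF F))
    (hU : M ≤ U) (κ : Set (GF F)) (hκ : κ ⊆ CF F) (hκU : ∀ s ∈ κ, s ∈ U)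
    (hinv : ∀ s ∈ κ, ∀ u ∈ U, u * s * u⁻¹ ∈ κ) :
    ∃ M' ∈ NF F, M' ≤ M ∧ (∀ a ∈ M, a * a ∈ M') ∧ (∀ a ∈ M, ∀ b ∈ M, a * b * a⁻¹ * b⁻¹ ∈ M') ∧
      ∃ x : U →* ℤˣ, (∀ g (h : g ∈ U), g ∈ M' → x ⟨g, h⟩ = 1) ∧
        ∀ s (h : s ∈ U), s ∈ CF F → (x ⟨s, h⟩ = -1 ↔ s ∈ κ) := by
  obtain ⟨M₀, h0, hle⟩ := below F hF hM
  set U' : Subgroup GQ := U.map F.fixingSubgroup.subtype with hU'
  have hM₀U : M₀ ≤ U' := by
    intro g hg
    obtain ⟨h1, h2⟩ := hle g hg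
    exact ⟨⟨g, h1⟩, hU h2, rfl⟩
  obtain ⟨M₁, h1, hle1, -, -, x', hx1, hx2⟩ := gNtAll M₀ h0 U' hM₀U ((fun s : GF F => (s : GQ)) '' κ)
    (by rintro _ ⟨s, hs, rfl⟩; exact hκ hs)
    (by rintro _ ⟨s, hs, rfl⟩; exact ⟨s, hκU s hs, rfl⟩)
    (by
      rintro _ ⟨s, hs, rfl⟩ _ ⟨u, hu, rfl⟩
      exact ⟨u * s * u⁻¹, hinv s hs u hu, rfl⟩)
  have hM₁n : M₁.Normal := nAll_normal h1
  have hMn : M.Normal := hM.1
  -- the character of `U`
  let f : U →* U' :=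
    { toFun := fun u => ⟨((u : GF F) : GQ), ⟨u, u.2, rfl⟩⟩
      map_one' := rfl
      map_mul' := fun _ _ => rfl }
  let x : U →* ℤˣ := x'.comp f
  have hconj : ∀ g ∈ M, ∀ h : GF F, h⁻¹ * g * h ∈ M := by
    intro g hg h
    have := hMn.conj_mem g hg h⁻¹
    rwa [inv_inv] at this
  -- the kernel, made normal
  let y : GF F → M →* ℤˣ := fun h =>
    { toFun := fun g => x ⟨h⁻¹ * g * h, hU (hconj g g.2 h)⟩
      map_one' := by
        rw [← map_one x]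
        congr 1
        apply Subtype.ext
        simp
      map_mul' := fun a b => by
        rw [← map_mul]
        congr 1
        apply Subtype.ext
        simp [mul_assoc] }
  have hy : ∀ h (g : M), y h g = x ⟨h⁻¹ * g * h, hU (hconj g g.2 h)⟩ := fun h g => rfl
  let M' : Subgroup (GF F) := (⨅ h : GF F, (y h).ker).map M.subtype
  have hmem : ∀ g : GF F, g ∈ M' ↔ ∃ hg : g ∈ M, ∀ h : GF F, y h ⟨g, hg⟩ = 1 := by
    intro g
    constructor
    · rintro ⟨a, ha, rfl⟩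
      refine ⟨a.2, fun h => ?_⟩
      exact (Subgroup.mem_iInf.1 ha h)
    · rintro ⟨hg, h⟩
      exact ⟨⟨g, hg⟩, Subgroup.mem_iInf.2 fun t => h t, rfl⟩
  have hopen : IsOpen (M' : Set (GF F)) := by
    have hb : IsOpen (M₁ : Set GQ) := by
      obtain ⟨K, hK, hKn, rfl⟩ := h1
      exact IntermediateField.fixingSubgroup_isOpen K
    have hb' : IsOpen ((M₁.subgroupOf F.fixingSubgroup : Subgroup (GF F)) : Set (GF F)) :=
      hb.preimage continuous_subtype_val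
    refine Subgroup.isOpen_mono (H₁ := M₁.subgroupOf F.fixingSubgroup) ?_ hb'
    intro g hg
    rw [Subgroup.mem_subgroupOf] at hg
    obtain ⟨_, hgM⟩ := hle g (hle1 hg)
    rw [hmem]
    refine ⟨hgM, fun h => ?_⟩
    rw [hy]
    have h3 : ((h⁻¹ * g * h : GF F) : GQ) ∈ M₁ := by
      have := hM₁n.conj_mem _ hg (h : GQ)⁻¹
      rwa [inv_inv] at this
    exact hx1 _ _ h3
  have hnorm : M'.Normal := by
    refine ⟨fun g hg t => ?_⟩
    rw [hmem] at hg ⊢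
    obtain ⟨hgM, hg⟩ := hg
    refine ⟨hMn.conj_mem g hgM t, fun h => ?_⟩
    have := hg (t⁻¹ * h)
    rw [hy] at this ⊢
    rw [← this]
    congr 1
  refine ⟨M', ⟨hnorm, hopen⟩, ?_, ?_, ?_, x, ?_, ?_⟩
  · intro g hg
    obtain ⟨h, -⟩ := (hmem g).1 hg
    exact h
  · intro a ha
    rw [hmem]
    refine ⟨M.mul_mem ha ha, fun h => ?_⟩
    have e : (⟨a * a, M.mul_mem ha ha⟩ : M) = ⟨a, ha⟩ * ⟨a, ha⟩ := rfl
    rw [e, map_mul]
    exact sqZ _
  · intro a ha b hb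
    rw [hmem]
    refine ⟨M.mul_mem (M.mul_mem (M.mul_mem ha hb) (M.inv_mem ha)) (M.inv_mem hb), fun h => ?_⟩
    have e : (⟨a * b * a⁻¹ * b⁻¹, M.mul_mem (M.mul_mem (M.mul_mem ha hb) (M.inv_mem ha)) (M.inv_mem hb)⟩ : M) =
      ⟨a, ha⟩ * ⟨b, hb⟩ * ⟨a, ha⟩⁻¹ * ⟨b, hb⟩⁻¹ := rfl
    rw [e, map_mul, map_mul, map_mul, map_inv, map_inv]
    rw [mul_comm (y h ⟨a, ha⟩), mul_inv_cancel_right, mul_inv_cancel]
  · intro g h hg
    obtain ⟨hgM, hg⟩ := (hmem g).1 hg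
    have := hg 1
    rw [hy] at this
    rw [← this]
    congr 1
  · intro s h hs
    have := hx2 (s : GQ) ⟨s, h, rfl⟩ hs
    refine Iff.trans this ?_
    constructor
    · rintro ⟨t, ht, hts⟩
      have : t = s := Subtype.ext hts
      rwa [← this]
    · intro hs'
      exact ⟨s, hs', rfl⟩

private theorem cF_conj {s : GF F} (hs : s ∈ CF F) (g : GF F) : g * s * g⁻¹ ∈ CF F := cc_conj hs (g : GQ)

private theorem cF_sq {s : GF F} (hs : s ∈ CF F) : s * s = 1 := Subtype.ext (cc_sq hs)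

theorem ntF_nil (hF : FiniteDimensional ℚ F) {M : Subgroup (GF F)} (hM : M ∈ NFNil F) (U : Subgroup (GF F))
    (_hU : M ≤ U) (κ : Set (GF F)) (hκ : κ ⊆ CF F) (hκU : ∀ s ∈ κ, s ∈ U)
    (hinv : ∀ s ∈ κ, ∀ u ∈ U, u * s * u⁻¹ ∈ κ) (hsat : ∀ s ∈ κ, ∀ s' ∈ CF F, s⁻¹ * s' ∈ M → s' ∈ κ) :
    ∃ M' ∈ NFNil F, M' ≤ M ∧ ∃ x : U →* ℤˣ, (∀ g (h : g ∈ U), g ∈ M' → x ⟨g, h⟩ = 1) ∧
        ∀ s (h : s ∈ U), s ∈ CF F → (x ⟨s, h⟩ = -1 ↔ s ∈ κ) := by
  obtain ⟨hMA, hMn, hnil⟩ := hM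
  have hfi : M.FiniteIndex := nF_fin F hF hMA
  have : Finite (GF F ⧸ M) := inferInstance
  obtain ⟨O, hOn, hOodd, ⟨k, hk⟩, hOc⟩ := gOdd (GF F ⧸ M) hnil
  set M₂ : Subgroup (GF F) := O.comap (QuotientGroup.mk' M) with hM₂
  have hMM₂ : M ≤ M₂ := by
    intro m hm
    rw [hM₂, Subgroup.mem_comap]
    have : QuotientGroup.mk' M m = 1 := by
      rw [QuotientGroup.mk'_apply, QuotientGroup.eq_one_iff]; exact hm
    rw [this]; exact O.one_mem
  have hM₂n : M₂.Normal := by rw [hM₂]; infer_instance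
  have hM₂A : M₂ ∈ NF F := ⟨hM₂n, Subgroup.isOpen_mono hMM₂ hMA.2⟩
  -- images commute
  have hcomm : ∀ m ∈ M₂, ∀ s : GF F, s * s = 1 →
      QuotientGroup.mk' M m * QuotientGroup.mk' M s = QuotientGroup.mk' M s * QuotientGroup.mk' M m := by
    intro m hm s hs
    apply hOc _ (by simpa [hM₂] using hm)
    rw [← map_mul, hs, map_one]
  have hMmem : ∀ g : GF F, QuotientGroup.mk' M g = 1 → g ∈ M := by
    intro g hg
    rw [QuotientGroup.mk'_apply, QuotientGroup.eq_one_iff] at hg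
    exact hg
  -- (a)
  have ha : ∀ s ∈ κ, ∀ u ∈ U ⊔ M₂, u * s * u⁻¹ ∈ κ := by
    intro s hs u hu
    rw [Subgroup.mem_sup_of_normal_right] at hu
    obtain ⟨u1, hu1, m, hm, rfl⟩ := hu
    have h1 : m * s * m⁻¹ ∈ κ := by
      apply hsat s hs _ (cF_conj F (hκ hs) m)
      apply hMmem
      have h2 := hcomm m hm s (cF_sq F (hκ hs))
      rw [map_mul, map_mul, map_mul, map_inv, map_inv, h2]
      group
    have h3 := hinv _ h1 u1 hu1
    have h4 : u1 * m * s * (u1 * m)⁻¹ = u1 * (m * s * m⁻¹) * u1⁻¹ := by group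
    rw [h4]; exact h3
  -- (c)
  obtain ⟨M₂', hM₂'A, hM₂'le, hsq, hcom, x₂, hx1, hx2⟩ := ntF_all F hF hM₂A (U ⊔ M₂) le_sup_right κ hκ
    (fun s hs => Subgroup.mem_sup_left (hκU s hs)) ha
  have hM₂'n : M₂'.Normal := hM₂'A.1
  have : M₂'.FiniteIndex := nF_fin F hF hM₂'A
  have hM₂'nil : M₂' ∈ NFNil F := by
    refine ⟨hM₂'A, hM₂'n, ?_⟩
    have hp : IsPGroup 2 (GF F ⧸ M₂') := by
      intro g
      obtain ⟨g, rfl⟩ := QuotientGroup.mk'_surjective M₂' g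
      refine ⟨k + 1, ?_⟩
      rw [← map_pow, QuotientGroup.mk'_apply, QuotientGroup.eq_one_iff, pow_succ, pow_mul, pow_two]
      apply hsq
      rw [hM₂, Subgroup.mem_comap, map_pow]
      exact hk _
    have : Fact (Nat.Prime 2) := ⟨Nat.prime_two⟩
    exact hp.isNilpotent
  refine ⟨M ⊓ M₂', nFNil_inf F ⟨hMA, hMn, hnil⟩ hM₂'nil, inf_le_left,
    x₂.comp (Subgroup.inclusion le_sup_left), ?_, ?_⟩
  · intro g h hg
    exact hx1 g (Subgroup.mem_sup_left h) hg.2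
  · intro s h hs
    exact hx2 s (Subgroup.mem_sup_left h) hs

/-- SBF-1: the three systems. -/
theorem exists_sysF (F : IntermediateField ℚ Qb) (hF : FiniteDimensional ℚ F) :
    (∃ D : Sys (GF F), D.S = CF F ∧ D.N = NF F) ∧ (∃ D : Sys (GF F), D.S = CF F ∧ D.N = NFSol F) ∧
      (∃ D : Sys (GF F), D.S = CF F ∧ D.N = NFNil F) := by
  refine ⟨⟨{ S := CF F
             N := NF F
             normal := fun M hM => hM.1
             fin := fun M hM => nF_fin F hF hM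
             inf := fun M hM M' hM' => nF_inf F hM hM'
             conj := fun s hs g => cF_conj F hs g
             sq := fun s hs => cF_sq F hs
             nt := ?_ }, rfl, rfl⟩,
    ⟨{ S := CF F
       N := NFSol F
       normal := fun M hM => hM.1.1
       fin := fun M hM => nF_fin F hF hM.1
       inf := fun M hM M' hM' => nFSol_inf F hM hM'
       conj := fun s hs g => cF_conj F hs g
       sq := fun s hs => cF_sq F hs
       nt := ?_ }, rfl, rfl⟩,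
    ⟨{ S := CF F
       N := NFNil F
       normal := fun M hM => hM.1.1
       fin := fun M hM => nF_fin F hF hM.1
       inf := fun M hM M' hM' => nFNil_inf F hM hM'
       conj := fun s hs g => cF_conj F hs g
       sq := fun s hs => cF_sq F hs
       nt := ?_ }, rfl, rfl⟩⟩
  · intro M hM U hU κ hκ hκU hinv _
    obtain ⟨M', hM', hle, -, -, x, hx1, hx2⟩ := ntF_all F hF hM U hU κ hκ hκU hinv
    exact ⟨M', hM', hle, x, hx1, hx2⟩
  · intro M hM U hU κ hκ hκU hinv _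
    obtain ⟨M', hM', hle, -, hc, x, hx1, hx2⟩ := ntF_all F hF hM.1 U hU κ hκ hκU hinv
    obtain ⟨hMA, hMn, hs⟩ := hM
    have hM'n : M'.Normal := hM'.1
    exact ⟨M', ⟨hM', hM'n, solExt M M' hs hle hc⟩, hle, x, hx1, hx2⟩
  · intro M hM U hU κ hκ hκU hinv hsat
    exact ntF_nil F hF hM U hU κ hκ hκU hinv hsat

/-- SBF-1: quadratic characters with prescribed signs. -/
theorem nt_F (F : IntermediateField ℚ Qb) (hF : FiniteDimensional ℚ F) (κ : Set (GF F)) (hκ : κ ⊆ CF F)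
    (hinv : ∀ s ∈ κ, ∀ u, u * s * u⁻¹ ∈ κ) :
    ∃ x : GF F →* ℤˣ, (∃ M ∈ NF F, ∀ g ∈ M, x g = 1) ∧ ∀ s ∈ CF F, (x s = -1 ↔ s ∈ κ) := by
  have htop : (⊤ : Subgroup (GF F)) ∈ NF F := ⟨inferInstance, isOpen_univ⟩
  obtain ⟨M', hM', -, -, -, x, hx1, hx2⟩ := ntF_all F hF htop ⊤ le_rfl κ hκ (fun s _ => Subgroup.mem_top s)
    (fun s hs u _ => hinv s hs u)
  exact ⟨x.comp (Subgroup.topEquiv.symm : GF F ≃* (⊤ : Subgroup (GF F))).toMonoidHom,
    ⟨M', hM', fun g hg => hx1 g (Subgroup.mem_top g) hg⟩, fun s hs => hx2 s (Subgroup.mem_top s) hs⟩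

end SB
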