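import Pool.Agent.Helper21.SBF.Base

/-!
# Project SBF, module M2: open normal subgroups of the absolute Galois group of a number field
-/

namespace SB

/-- the absolute Galois group as a group of `F`-automorphisms -/
private noncomputable def e_M2 (F : IntermediateField ℚ Qb) : GF F ≃* (Qb ≃ₐ[F] Qb) :=
  IntermediateField.fixingSubgroupEquiv F

private theorem e_apply_M2 (F : IntermediateField ℚ Qb) (g : GF F) (x : Qb) :
    e_M2 F g x = (g : GQ) x := rfl

private theorem open_M2 (F : IntermediateField ℚ Qb) {M : Subgroup (GF F)} (hM : M ∈ NF F) :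
    IsOpen ((M.map (e_M2 F).toMonoidHom : Subgroup (Qb ≃ₐ[F] Qb)) : Set (Qb ≃ₐ[F] Qb)) := by
  obtain ⟨-, ho⟩ := hM
  obtain ⟨V, hV, hVM⟩ := isOpen_induced_iff.1 ho
  have h1 : (1 : GQ) ∈ V := by
    have h2 : (1 : GF F) ∈ Subtype.val ⁻¹' V := by
      rw [hVM]
      exact M.one_mem
    exact h2
  obtain ⟨E, hE, hEV⟩ := (krullTopology_mem_nhds_one_iff ℚ Qb V).1 (hV.mem_nhds h1)
  have hE' : FiniteDimensional ℚ E := hE
  let b := Module.finBasis ℚ E
  let S : Set Qb := Set.range fun i => ((b i : E) : Qb)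
  have hfin : Finite S := Set.finite_range _
  let L : IntermediateField F Qb := IntermediateField.adjoin F S
  have hL : FiniteDimensional F L := by
    refine IntermediateField.finiteDimensional_adjoin ?_
    intro x _
    exact (Algebra.IsIntegral.isIntegral (R := F) x)
  refine Subgroup.isOpen_mono (H₁ := L.fixingSubgroup) ?_ (IntermediateField.fixingSubgroup_isOpen L)
  intro σ hσ
  refine ⟨(e_M2 F).symm σ, ?_, (e_M2 F).apply_symm_apply σ⟩
  set g : GF F := (e_M2 F).symm σ with hg
  have hgσ : ∀ x, (g : GQ) x = σ x := by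
    intro x
    rw [← e_apply_M2, hg, (e_M2 F).apply_symm_apply]
  have hfix : ∀ x ∈ S, (g : GQ) x = x := by
    intro x hx
    rw [hgσ]
    exact (IntermediateField.mem_fixingSubgroup_iff L σ).1 hσ x (IntermediateField.subset_adjoin F S hx)
  have hgE : (g : GQ) ∈ E.fixingSubgroup := by
    rw [IntermediateField.mem_fixingSubgroup_iff]
    intro x hx
    have h3 : ((g : GQ).toLinearMap.comp E.val.toLinearMap : E →ₗ[ℚ] Qb) = E.val.toLinearMap := by
      refine b.ext fun i => ?_
      exact hfix _ ⟨i, rfl⟩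
    exact LinearMap.congr_fun h3 ⟨x, hx⟩
  have h4 : g ∈ Subtype.val ⁻¹' V := hEV hgE
  rw [hVM] at h4
  exact h4

/-- SBF-2. -/
theorem field_of (F : IntermediateField ℚ Qb) (hF : FiniteDimensional ℚ F) {M : Subgroup (GF F)} (hM : M ∈ NF F) :
    ∃ K : IntermediateField F Qb, FinGal F K ∧ M = galIn F K ∧ (M ∈ NFSol F → SolGal F K) ∧
      (M ∈ NFNil F → NilGal F K) := by
  have hMn : M.Normal := hM.1
  let M' : Subgroup (Qb ≃ₐ[F] Qb) := M.map (e_M2 F).toMonoidHom
  have ho : IsOpen (M' : Set (Qb ≃ₐ[F] Qb)) := open_M2 F hM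
  have hc : IsClosed (M' : Set (Qb ≃ₐ[F] Qb)) := M'.isClosed_of_isOpen ho
  have hn : M'.Normal := hMn.map _ (e_M2 F).surjective
  let K : IntermediateField F Qb := IntermediateField.fixedField M'
  have hK : K.fixingSubgroup = M' := InfiniteGalois.fixingSubgroup_fixedField ⟨M', hc⟩
  have hfg : FiniteDimensional F K ∧ IsGalois F K := by
    rw [← InfiniteGalois.isOpen_and_normal_iff_finite_and_isGalois, hK]
    exact ⟨ho, hn⟩
  obtain ⟨hK1, hK2⟩ := hfg
  have hMg : M = galIn F K := by
    ext g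
    have h1 : g ∈ M ↔ e_M2 F g ∈ M' := by
      constructor
      · intro h
        exact ⟨g, h, rfl⟩
      · rintro ⟨g', h2, h3⟩
        have h4 : g' = g := (e_M2 F).injective h3
        rw [← h4]
        exact h2
    rw [h1, ← hK, IntermediateField.mem_fixingSubgroup_iff]
    rfl
  let f : GF F →* (K ≃ₐ[F] K) := (AlgEquiv.restrictNormalHom K).comp (e_M2 F).toMonoidHom
  have hsurj : Function.Surjective f :=
    (AlgEquiv.restrictNormalHom_surjective Qb).comp (e_M2 F).surjective
  have hker : f.ker = M := by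
    ext g
    rw [MonoidHom.mem_ker, hMg]
    have h1 : f g = 1 ↔ e_M2 F g ∈ (AlgEquiv.restrictNormalHom K : (Qb ≃ₐ[F] Qb) →* (K ≃ₐ[F] K)).ker :=
      Iff.rfl
    rw [h1, IntermediateField.restrictNormalHom_ker, IntermediateField.mem_fixingSubgroup_iff]
    rfl
  let e : (GF F ⧸ M) ≃* (K ≃ₐ[F] K) :=
    (QuotientGroup.quotientMulEquivOfEq hker.symm).trans
      (QuotientGroup.quotientKerEquivOfSurjective f hsurj)
  refine ⟨K, ⟨hK1, hK2⟩, hMg, ?_, ?_⟩
  · rintro ⟨_, _, h⟩
    exact Group.isSolvable_of_surjective (f := e.toMonoidHom) e.surjective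
  · rintro ⟨_, _, h⟩
    exact (Group.isNilpotent_congr e).1 h

end SB
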