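import Pool.Agent.Helper21.SBF.Base
import Pool.Agent.Helper21.SB.C0

/-!
# SBF-3: continuous representations of the absolute Galois group of a number field have open kernel
-/

namespace SB

/-- The entrywise norm of a matrix. -/
private noncomputable def nmF {d : ℕ} (A : Matrix (Fin d) (Fin d) ℂ) : ℝ := ∑ i, ∑ j, ‖A i j‖

private theorem nmF_nonneg {d : ℕ} (A : Matrix (Fin d) (Fin d) ℂ) : 0 ≤ nmF A :=
  Finset.sum_nonneg fun _ _ => Finset.sum_nonneg fun _ _ => norm_nonneg _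

private theorem nmF_eq_zero {d : ℕ} {A : Matrix (Fin d) (Fin d) ℂ} (h : nmF A = 0) : A = 0 := by
  ext i j
  have h1 := (Finset.sum_eq_zero_iff_of_nonneg
    (fun i _ => Finset.sum_nonneg fun j _ => norm_nonneg (A i j))).1 h i (Finset.mem_univ i)
  have h2 := (Finset.sum_eq_zero_iff_of_nonneg (fun j _ => norm_nonneg (A i j))).1 h1 j
    (Finset.mem_univ j)
  exact norm_eq_zero.1 h2

private theorem nmF_sub {d : ℕ} (A B : Matrix (Fin d) (Fin d) ℂ) : nmF (A - B) ≤ nmF A + nmF B := by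
  unfold nmF
  rw [← Finset.sum_add_distrib]
  refine Finset.sum_le_sum fun i _ => ?_
  rw [← Finset.sum_add_distrib]
  exact Finset.sum_le_sum fun j _ => norm_sub_le _ _

private theorem nmF_two {d : ℕ} (A : Matrix (Fin d) (Fin d) ℂ) : nmF (A + A) = 2 * nmF A := by
  unfold nmF
  rw [Finset.mul_sum]
  refine Finset.sum_congr rfl fun i _ => ?_
  rw [Finset.mul_sum]
  refine Finset.sum_congr rfl fun j _ => ?_
  rw [Matrix.add_apply, ← two_mul, norm_mul]
  simp

private theorem nmF_mul {d : ℕ} (A B : Matrix (Fin d) (Fin d) ℂ) : nmF (A * B) ≤ nmF A * nmF B := by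
  have h1 : nmF (A * B) ≤ ∑ i, ∑ j, ∑ k, ‖A i k‖ * ‖B k j‖ := by
    refine Finset.sum_le_sum fun i _ => Finset.sum_le_sum fun j _ => ?_
    rw [Matrix.mul_apply]
    refine (norm_sum_le _ _).trans (le_of_eq ?_)
    exact Finset.sum_congr rfl fun k _ => norm_mul _ _
  refine h1.trans ?_
  have h2 : (∑ i, ∑ j, ∑ k, ‖A i k‖ * ‖B k j‖) = ∑ i, ∑ k, ‖A i k‖ * ∑ j, ‖B k j‖ := by
    refine Finset.sum_congr rfl fun i _ => ?_
    rw [Finset.sum_comm]
    exact Finset.sum_congr rfl fun k _ => (Finset.mul_sum _ _ _).symm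
  rw [h2]
  unfold nmF
  rw [Finset.sum_mul]
  refine Finset.sum_le_sum fun i _ => ?_
  rw [Finset.sum_mul]
  refine Finset.sum_le_sum fun k _ => mul_le_mul_of_nonneg_left ?_ (norm_nonneg _)
  exact Finset.single_le_sum (f := fun k => ∑ j, ‖B k j‖)
    (fun k _ => Finset.sum_nonneg fun j _ => norm_nonneg (B k j)) (Finset.mem_univ k)

/-- A matrix whose powers are all close to one is the identity. -/
private theorem powF_close {d : ℕ} (A : Matrix (Fin d) (Fin d) ℂ)
    (h : ∀ n : ℕ, nmF (A ^ n - 1) ≤ 1 / 2) : A = 1 := by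
  have key : ∀ k : ℕ, ∀ n : ℕ, nmF (A ^ n - 1) ≤ (2 / 3) ^ k * (1 / 2) := by
    intro k
    induction k with
    | zero => intro n; simpa using h n
    | succ k ih =>
      intro n
      have h1 := ih (2 * n)
      have h2 := h n
      have h0 := nmF_nonneg (A ^ n - 1)
      have e : (A ^ n - 1) + (A ^ n - 1) = (A ^ (2 * n) - 1) - (A ^ n - 1) * (A ^ n - 1) := by
        rw [two_mul, pow_add]
        noncomm_ring
      have h3 : 2 * nmF (A ^ n - 1) ≤ nmF (A ^ (2 * n) - 1) + nmF (A ^ n - 1) * nmF (A ^ n - 1) := by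
        rw [← nmF_two, e]
        exact (nmF_sub _ _).trans (add_le_add le_rfl (nmF_mul _ _))
      have h4 : nmF (A ^ n - 1) * nmF (A ^ n - 1) ≤ (1 / 2) * nmF (A ^ n - 1) :=
        mul_le_mul_of_nonneg_right h2 h0
      rw [pow_succ]
      linarith
  have hlim : Filter.Tendsto (fun k : ℕ => ((2 : ℝ) / 3) ^ k * (1 / 2)) Filter.atTop (nhds 0) := by
    have := (tendsto_pow_atTop_nhds_zero_of_lt_one (r := (2 : ℝ) / 3) (by norm_num)
      (by norm_num)).mul_const (1 / 2)
    simpa using this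
  have h5 : nmF (A ^ 1 - 1) ≤ 0 := ge_of_tendsto' hlim fun k => key k 1
  have h6 := nmF_eq_zero (le_antisymm h5 (nmF_nonneg _))
  rw [pow_one] at h6
  exact sub_eq_zero.1 h6

/-- The kernel of a continuous representation of a subgroup of `GQ` is open. -/
private theorem ker_open (H : Subgroup GQ) {d : ℕ} (ρ : Rp H d) (h : Continuous ρ) :
    IsOpen (ρ.ker : Set H) := by
  have hc : Continuous fun g : H => (ρ g : Matrix (Fin d) (Fin d) ℂ) :=
    Units.continuous_val.comp h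
  have hc2 : Continuous fun g : H => nmF ((ρ g : Matrix (Fin d) (Fin d) ℂ) - 1) := by
    unfold nmF
    refine continuous_finset_sum _ fun i _ => continuous_finset_sum _ fun j _ => ?_
    exact ((hc.matrix_elem i j).sub continuous_const).norm
  have h1 : {g : H | nmF ((ρ g : Matrix (Fin d) (Fin d) ℂ) - 1) < 1 / 2} ∈ nhds (1 : H) := by
    apply (isOpen_lt hc2 continuous_const).mem_nhds
    simp [nmF]
  rw [nhds_subtype_eq_comap, Filter.mem_comap] at h1
  obtain ⟨V, hV, hVs⟩ := h1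
  obtain ⟨K, hK, hn, hsub⟩ := (krullTopology_mem_nhds_one_iff_of_normal ℚ Qb _).1 hV
  have hopen : IsOpen (K.fixingSubgroup : Set GQ) := IntermediateField.fixingSubgroup_isOpen K
  have hle : K.fixingSubgroup.subgroupOf H ≤ ρ.ker := by
    intro g hg
    rw [MonoidHom.mem_ker]
    have h2 : (ρ g : Matrix (Fin d) (Fin d) ℂ) = 1 := by
      apply powF_close
      intro n
      have h3 : g ^ n ∈ K.fixingSubgroup.subgroupOf H := Subgroup.pow_mem _ hg n
      have h4 : ((g ^ n : H) : GQ) ∈ V := hsub h3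
      have h5 : nmF ((ρ (g ^ n) : Matrix (Fin d) (Fin d) ℂ) - 1) < 1 / 2 := hVs h4
      rw [map_pow, Units.val_pow_eq_pow_val] at h5
      exact h5.le
    exact Units.ext h2
  exact Subgroup.isOpen_mono hle (hopen.preimage continuous_subtype_val)

theorem ker_F (F : IntermediateField ℚ Qb) (hF : FiniteDimensional ℚ F) {d : ℕ} (ρ : Rp (GF F) d)
    (h : Continuous ρ) : ρ.ker ∈ NF F :=
  ⟨inferInstance, ker_open _ ρ h⟩

theorem fin_F (F : IntermediateField ℚ Qb) (hF : FiniteDimensional ℚ F) {M : Subgroup (GF F)} (hM : M ∈ NF F) :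
    M.FiniteIndex := by
  have h1 : (M : Set (GF F)) ∈ nhds (1 : GF F) := hM.2.mem_nhds M.one_mem
  rw [nhds_subtype_eq_comap, Filter.mem_comap] at h1
  obtain ⟨V, hV, hVs⟩ := h1
  obtain ⟨K, hK, hn, hsub⟩ := (krullTopology_mem_nhds_one_iff_of_normal ℚ Qb _).1 hV
  have hfin : (K.fixingSubgroup).FiniteIndex := nAll_fin ⟨K, hK, (normal_conv K).2 hn, rfl⟩
  have hle : K.fixingSubgroup.subgroupOf F.fixingSubgroup ≤ M := fun g hg => hVs (hsub hg)
  exact Subgroup.finiteIndex_of_le hle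

theorem quot_F (F : IntermediateField ℚ Qb) {d : ℕ} (ρ₁ ρ₂ : Rp (GF F) d) (h : ρ₁.ker ⊓ ρ₂.ker ∈ NF F) :
    (SolIm ρ₁ → SolIm ρ₂ → ρ₁.ker ⊓ ρ₂.ker ∈ NFSol F) ∧ (NilIm ρ₁ → NilIm ρ₂ → ρ₁.ker ⊓ ρ₂.ker ∈ NFNil F) := by
  have hn : (ρ₁.ker ⊓ ρ₂.ker).Normal := h.1
  let f : GF F →* ρ₁.range × ρ₂.range := (ρ₁.rangeRestrict).prod (ρ₂.rangeRestrict)
  have hker : f.ker = ρ₁.ker ⊓ ρ₂.ker := by
    ext g
    simp only [f, MonoidHom.mem_ker, MonoidHom.prod_apply, Prod.mk_eq_one, Subgroup.mem_inf]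
    constructor
    · rintro ⟨h1, h2⟩
      exact ⟨congrArg Subtype.val h1, congrArg Subtype.val h2⟩
    · rintro ⟨h1, h2⟩
      exact ⟨Subtype.ext h1, Subtype.ext h2⟩
  let G : GF F ⧸ (ρ₁.ker ⊓ ρ₂.ker) →* ρ₁.range × ρ₂.range := QuotientGroup.lift _ f (fun g hg => by
    rw [← hker] at hg; exact hg)
  have hG : Function.Injective G := by
    rw [injective_iff_map_eq_one]
    intro x hx
    obtain ⟨g, rfl⟩ := QuotientGroup.mk_surjective x
    have h1 : f g = 1 := hx
    rw [QuotientGroup.eq_one_iff, ← hker]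
    exact h1
  constructor
  · intro s1 s2
    have s1' : Group.IsSolvable ρ₁.range := s1
    have s2' : Group.IsSolvable ρ₂.range := s2
    exact ⟨h, hn, Group.isSolvable_of_isSolvable_injective hG⟩
  · intro s1 s2
    have s1' : Group.IsNilpotent ρ₁.range := s1
    have s2' : Group.IsNilpotent ρ₂.range := s2
    exact ⟨h, hn, Subgroup.isNilpotent_of_ker_le_center G (by rw [(MonoidHom.ker_eq_bot_iff G).2 hG]; exact bot_le)⟩

end SB
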