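import Pool.Agent.Helper21.SBF.Base
import Pool.Agent.Helper21.SB.C1
import Pool.Agent.Helper21.SB.C2

/-!
# Project SBF, module M4: invariants over a topological group
-/

namespace SB

section
variable {Γ : Type} [Group Γ] [TopologicalSpace Γ]

/-- SBF-4: a representation trivial on an open normal subgroup is continuous. -/
theorem cont_of_open {d : ℕ} (ρ : Rp Γ d) [ContinuousMul Γ] {N : Subgroup Γ} (hN : IsOpen (N : Set Γ))
    (h : ∀ g ∈ N, ρ g = 1) : Continuous ρ := by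
  rw [continuous_iff_continuousAt]
  intro g
  have h1 : IsOpen ((fun x : Γ => g⁻¹ * x) ⁻¹' (N : Set Γ)) := hN.preimage (continuous_const_mul g⁻¹)
  have h2 : ((fun x : Γ => g⁻¹ * x) ⁻¹' (N : Set Γ)) ∈ nhds g := by
    apply h1.mem_nhds
    show g⁻¹ * g ∈ N
    rw [inv_mul_cancel]
    exact N.one_mem
  have h3 : (fun _ : Γ => ρ g) =ᶠ[nhds g] ρ := by
    filter_upwards [h2] with x hx
    have h4 : ρ (g⁻¹ * x) = 1 := h _ hx
    rw [map_mul, map_inv, inv_mul_eq_one] at h4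
    exact h4
  exact (continuousAt_const (y := ρ g)).congr h3

namespace M4F

open C1 in
theorem exists_indRep' (M U : Subgroup Γ) (hM : M.Normal) (hMU : M ≤ U) (hU : U.FiniteIndex) (χ : U →* ℂˣ)
    (hχ : ∀ g (h : g ∈ U), g ∈ M → χ ⟨g, h⟩ = 1) :
    ∃ (d : ℕ) (ρ : Rp Γ d), (∀ g ∈ M, ρ g = 1) ∧ ∀ g, chr ρ g = Ind U (ext U χ) g := by
  have : Finite (Γ ⧸ U) := Subgroup.finite_quotient_of_finiteIndex
  obtain ⟨d, ⟨e⟩⟩ := Finite.exists_equiv_fin (Γ ⧸ U)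
  let f : Γ →* Matrix (Fin d) (Fin d) ℂ :=
    { toFun := mat U χ e
      map_one' := mat_one U χ e M hM hMU hχ M.one_mem
      map_mul' := mat_mul U χ e }
  refine ⟨d, MonoidHom.toHomUnits f, fun g hg => ?_, fun g => ?_⟩
  · apply Units.ext
    exact mat_one U χ e M hM hMU hχ hg
  · have hft : Fintype (Γ ⧸ U) := Fintype.ofFinite _
    unfold chr Ind
    rw [finsum_eq_sum_of_fintype]
    have h1 : Matrix.trace ((MonoidHom.toHomUnits f) g : Matrix (Fin d) (Fin d) ℂ) =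
        ∑ i, ext U χ ((e.symm i).out⁻¹ * g * (e.symm i).out) := rfl
    rw [h1, e.symm.sum_comp (fun q => ext U χ (q.out⁻¹ * g * q.out))]

open C2

/-- the direct sum of two representations -/
noncomputable def ds {d d' : ℕ} (ρ : Rp Γ d) (ρ' : Rp Γ d') : Rp Γ (d + d') :=
  (Units.map (blk d d')).comp
    ((MulEquiv.prodUnits.symm : _ ≃* _).toMonoidHom.comp (ρ.prod ρ'))

theorem ds_val {d d' : ℕ} (ρ : Rp Γ d) (ρ' : Rp Γ d') (g : Γ) :
    ((ds ρ ρ' g : Matrix.GeneralLinearGroup (Fin (d + d')) ℂ) :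
      Matrix (Fin (d + d')) (Fin (d + d')) ℂ) = blk d d' ((ρ g : Matrix _ _ ℂ), (ρ' g :
        Matrix _ _ ℂ)) := rfl

theorem ds_cont {d d' : ℕ} {ρ : Rp Γ d} {ρ' : Rp Γ d'} (h : Continuous ρ) (h' : Continuous ρ') :
    Continuous (ds ρ ρ') := by
  rw [Units.continuous_iff] at h h' ⊢
  refine ⟨?_, ?_⟩
  · exact (blk_cont d d').comp (h.1.prodMk h'.1)
  · exact (blk_cont d d').comp (h.2.prodMk h'.2)

theorem ds_chr {d d' : ℕ} (ρ : Rp Γ d) (ρ' : Rp Γ d') (g : Γ) :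
    chr (ds ρ ρ') g = chr ρ g + chr ρ' g := by
  unfold chr
  rw [ds_val, blk_trace]

variable {A : Type} [CommGroup A] (L : ∀ d : ℕ, Rp Γ d → A)

/-- `φ` is the character of a continuous representation with invariant `a` -/
def RF (φ : Γ → ℂ) (a : A) : Prop :=
  ∃ (d : ℕ) (ρ : Rp Γ d), Continuous ρ ∧ (∀ g, chr ρ g = φ g) ∧ L d ρ = a

variable {L}

theorem zc : Continuous (1 : Rp Γ 0) := continuous_const

theorem zt (g : Γ) : chr (1 : Rp Γ 0) g = 0 := by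
  unfold chr
  exact Matrix.trace_fin_zero _

theorem L_zero' (hmul : Mult L) : L 0 1 = 1 := by
  have h := hmul 0 0 0 1 1 1 zc zc zc (fun g => by rw [zt, add_zero])
  exact (mul_eq_left.1 h.symm)

theorem RF_zero (hmul : Mult L) : RF L (fun _ => 0) 1 :=
  ⟨0, 1, zc, zt, L_zero' hmul⟩

theorem RF_unique (hmul : Mult L) {φ : Γ → ℂ} {a b : A} (h : RF L φ a) (h' : RF L φ b) :
    a = b := by
  obtain ⟨d, ρ, hc, ht, rfl⟩ := h
  obtain ⟨d', ρ', hc', ht', rfl⟩ := h'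
  have h1 := hmul d d' 0 ρ ρ' 1 hc hc' zc (fun g => by
    rw [ht, ht', zt, add_zero])
  rw [h1, L_zero' hmul, mul_one]

theorem RF_add (hmul : Mult L) {φ ψ : Γ → ℂ} {a b : A} (h : RF L φ a) (h' : RF L ψ b) :
    RF L (fun g => φ g + ψ g) (a * b) := by
  obtain ⟨d, ρ, hc, ht, rfl⟩ := h
  obtain ⟨d', ρ', hc', ht', rfl⟩ := h'
  refine ⟨d + d', ds ρ ρ', ds_cont hc hc', fun g => by rw [ds_chr, ht, ht'], ?_⟩
  exact hmul _ _ _ _ _ _ (ds_cont hc hc') hc hc' (fun g => ds_chr ρ ρ' g)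

theorem RF_nsmul (hmul : Mult L) {φ : Γ → ℂ} {a : A} (h : RF L φ a) (k : ℕ) :
    RF L (fun g => (k : ℂ) * φ g) (a ^ k) := by
  induction k with
  | zero =>
    simp only [Nat.cast_zero, zero_mul, pow_zero]
    exact RF_zero hmul
  | succ k ih =>
    have h2 := RF_add hmul ih h
    rw [pow_succ]
    have e : (fun g => ((k + 1 : ℕ) : ℂ) * φ g) = fun g => (k : ℂ) * φ g + φ g := by
      funext g
      push_cast
      ring
    rw [e]
    exact h2

theorem RF_sum (hmul : Mult L) {ι : Type} (s : Finset ι) (φ : ι → Γ → ℂ) (a : ι → A)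
    (h : ∀ i ∈ s, RF L (φ i) (a i)) : RF L (fun g => ∑ i ∈ s, φ i g) (∏ i ∈ s, a i) := by
  classical
  induction s using Finset.induction_on with
  | empty =>
    simp only [Finset.sum_empty, Finset.prod_empty]
    exact RF_zero hmul
  | insert i s hi ih =>
    rw [Finset.prod_insert hi]
    have e : (fun g => ∑ j ∈ insert i s, φ j g) = fun g => φ i g + ∑ j ∈ s, φ j g := by
      funext g
      rw [Finset.sum_insert hi]
    rw [e]
    exact RF_add hmul (h i (Finset.mem_insert_self i s))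
      (ih fun j hj => h j (Finset.mem_insert_of_mem hj))

end M4F

open M4F in
/-- SBF-4: invariants. -/
theorem inv_gen [ContinuousMul Γ] (S : Set Γ) {A : Type} [CommGroup A] (L : ∀ d : ℕ, Rp Γ d → A) (hmul : Mult L)
    (hsig : SigInv S L) {N : Subgroup Γ} (hN : N.Normal) (hf : N.FiniteIndex) (ho : IsOpen (N : Set Γ))
    {P : Subgroup Γ → Prop} {d : ℕ} (ρ₁ ρ₂ : Rp Γ d) (h₁ : Continuous ρ₁) (h₂ : Continuous ρ₂)
    (h : Decomp S N P ρ₁ ρ₂) : L d ρ₁ = L d ρ₂ := by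
  obtain ⟨m, n, U, χ, χ', hP, hv⟩ := h
  have hUf : ∀ i, (U i).FiniteIndex := fun i => Subgroup.finiteIndex_of_le (hP i).2.1
  have hpair : ∀ i, ∃ s : A, RF L (IndChr (U i) (χ i)) s ∧ RF L (IndChr (U i) (χ' i)) s := by
    intro i
    obtain ⟨-, hU, ht, ht', hs⟩ := hP i
    obtain ⟨e, σ, hσ1, hσ2⟩ := exists_indRep' N (U i) hN hU (hUf i) (χ i) ht
    obtain ⟨e', σ', hσ1', hσ2'⟩ := exists_indRep' N (U i) hN hU (hUf i) (χ' i) ht'
    have hc := cont_of_open σ ho hσ1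
    have hc' := cont_of_open σ' ho hσ1'
    refine ⟨L e σ, ⟨e, σ, hc, hσ2, rfl⟩, ⟨e', σ', hc', hσ2', ?_⟩⟩
    exact (hsig e e' σ σ' N (U i) (χ i) (χ' i) hc hc' ho ⟨hU, ht, ht', hs⟩ hσ2 hσ2').symm
  choose s hs hs' using hpair
  have R1 : RF L (fun g => chr ρ₁ g + ∑ i, (((n i).toNat : ℂ) * IndChr (U i) (χ' i) g +
      ((-(n i)).toNat : ℂ) * IndChr (U i) (χ i) g))
      (L d ρ₁ * ∏ i, (s i ^ (n i).toNat * s i ^ (-(n i)).toNat)) :=
    RF_add hmul ⟨d, ρ₁, h₁, fun _ => rfl, rfl⟩ (RF_sum hmul _ _ _ fun i _ =>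
      RF_add hmul (RF_nsmul hmul (hs' i) _) (RF_nsmul hmul (hs i) _))
  have R2 : RF L (fun g => chr ρ₂ g + ∑ i, (((n i).toNat : ℂ) * IndChr (U i) (χ i) g +
      ((-(n i)).toNat : ℂ) * IndChr (U i) (χ' i) g))
      (L d ρ₂ * ∏ i, (s i ^ (n i).toNat * s i ^ (-(n i)).toNat)) :=
    RF_add hmul ⟨d, ρ₂, h₂, fun _ => rfl, rfl⟩ (RF_sum hmul _ _ _ fun i _ =>
      RF_add hmul (RF_nsmul hmul (hs i) _) (RF_nsmul hmul (hs' i) _))
  have hz : ∀ z : ℤ, (z : ℂ) = (z.toNat : ℂ) - ((-z).toNat : ℂ) := by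
    intro z
    have h1 : z = (z.toNat : ℤ) - ((-z).toNat : ℤ) := by omega
    exact_mod_cast congrArg (Int.cast : ℤ → ℂ) h1
  have hfun : (fun g => chr ρ₁ g + ∑ i, (((n i).toNat : ℂ) * IndChr (U i) (χ' i) g +
      ((-(n i)).toNat : ℂ) * IndChr (U i) (χ i) g)) =
      fun g => chr ρ₂ g + ∑ i, (((n i).toNat : ℂ) * IndChr (U i) (χ i) g +
      ((-(n i)).toNat : ℂ) * IndChr (U i) (χ' i) g) := by
    funext g
    have h1 := hv g
    have h2 : (∑ i, (n i : ℂ) * (IndChr (U i) (χ i) g - IndChr (U i) (χ' i) g)) =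
        (∑ i, (((n i).toNat : ℂ) * IndChr (U i) (χ i) g +
        ((-(n i)).toNat : ℂ) * IndChr (U i) (χ' i) g)) -
        ∑ i, (((n i).toNat : ℂ) * IndChr (U i) (χ' i) g +
        ((-(n i)).toNat : ℂ) * IndChr (U i) (χ i) g) := by
      rw [← Finset.sum_sub_distrib]
      refine Finset.sum_congr rfl fun i _ => ?_
      rw [hz (n i)]
      ring
    rw [h2] at h1
    linear_combination h1
  rw [hfun] at R1
  exact mul_right_cancel (RF_unique hmul R1 R2)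

end

end SB
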