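import Pool.Agent.Helper21.SBF.M4

/-!
# Project SBF, module M5: the factorization of the invariants
-/

namespace SB

section
variable {Γ : Type} [Group Γ]

namespace M5F

open M4F

/-- the sign character as a representation of degree one -/
noncomputable def sg (x : Γ →* ℤˣ) : Rp Γ 1 :=
  (Units.map ((Int.castRingHom (Matrix (Fin 1) (Fin 1) ℂ) :
    ℤ →+* Matrix (Fin 1) (Fin 1) ℂ) : ℤ →* Matrix (Fin 1) (Fin 1) ℂ)).comp x

theorem sg_chr (x : Γ →* ℤˣ) (g : Γ) : chr (sg x) g = (((x g : ℤˣ) : ℤ) : ℂ) := by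
  have h : ((sg x g : Matrix.GeneralLinearGroup (Fin 1) ℂ) : Matrix (Fin 1) (Fin 1) ℂ) =
      ((((x g : ℤˣ) : ℤ)) : Matrix (Fin 1) (Fin 1) ℂ) := rfl
  unfold chr
  rw [h, Matrix.trace_fin_one]
  rcases Int.units_eq_one_or (x g) with h1 | h1
  · rw [h1]; simp
  · rw [h1]; simp

theorem sg_one {x : Γ →* ℤˣ} {g : Γ} (h : x g = 1) : sg x g = 1 := by
  have e : sg x g = (Units.map ((Int.castRingHom (Matrix (Fin 1) (Fin 1) ℂ) :
    ℤ →+* Matrix (Fin 1) (Fin 1) ℂ) : ℤ →* Matrix (Fin 1) (Fin 1) ℂ)) (x g) := rfl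
  rw [e, h, map_one]

theorem chr_one_rep (d : ℕ) (g : Γ) : chr (1 : Rp Γ d) g = (d : ℂ) := by
  unfold chr
  have h : (((1 : Rp Γ d) g : Matrix.GeneralLinearGroup (Fin d) ℂ) :
      Matrix (Fin d) (Fin d) ℂ) = 1 := rfl
  rw [h, Matrix.trace_one, Fintype.card_fin]

theorem chr_at_one {d : ℕ} (ρ : Rp Γ d) : chr ρ 1 = (d : ℂ) := by
  unfold chr
  rw [map_one, Units.val_one, Matrix.trace_one, Fintype.card_fin]

theorem chr_conj {d : ℕ} (ρ : Rp Γ d) (g c : Γ) : chr ρ (g * c * g⁻¹) = chr ρ c := by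
  unfold chr
  rw [map_mul, map_mul, Units.val_mul, Units.val_mul, Matrix.trace_mul_comm, ← mul_assoc,
    ← Units.val_mul, ← map_mul, inv_mul_cancel, map_one, Units.val_one, one_mul]

variable [TopologicalSpace Γ] {A : Type} {L : ∀ d : ℕ, Rp Γ d → A}

/-- Two combinations with equal values at the identity and on `S` have equal invariants. -/
theorem RF_eq {S : Set Γ} (heq : ∀ (d : ℕ) (ρ₁ ρ₂ : Rp Γ d), EqAt S ρ₁ ρ₂ → L d ρ₁ = L d ρ₂)
    {φ ψ : Γ → ℂ} {a b : A} (h1 : φ 1 = ψ 1) (hS : ∀ s ∈ S, φ s = ψ s) (ha : RF L φ a)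
    (hb : RF L ψ b) : a = b := by
  obtain ⟨d, ρ, hc, ht, rfl⟩ := ha
  obtain ⟨d', ρ', hc', ht', rfl⟩ := hb
  have hd : d = d' := by
    have : (d : ℂ) = (d' : ℂ) := by
      rw [← chr_at_one ρ, ← chr_at_one ρ', ht, ht', h1]
    exact_mod_cast this
  subst hd
  exact heq d ρ ρ' ⟨hc, hc', fun s hs => by rw [ht, ht', hS s hs]⟩

end M5F

variable [TopologicalSpace Γ]

open M4F M5F in
/-- SBF-5: the factorization. `x i` is the quadratic character which is `-1` exactly at the class of `c i`. -/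
theorem factor_gen [ContinuousMul Γ] (S : Set Γ) {r : ℕ} (c : Fin r → Γ) (hc : IsRep S c)
    (hinv : ∀ s ∈ S, s * s = 1)
    (hx : ∀ i, ∃ x : Γ →* ℤˣ, (∃ N : Subgroup Γ, IsOpen (N : Set Γ) ∧ ∀ g ∈ N, x g = 1) ∧
      ∀ s ∈ S, (x s = -1 ↔ ∃ g, s = g * c i * g⁻¹))
    {A : Type} [CommGroup A] (L : ∀ d : ℕ, Rp Γ d → A) (hmul : Mult L)
    (heq : ∀ (d : ℕ) (ρ₁ ρ₂ : Rp Γ d), EqAt S ρ₁ ρ₂ → L d ρ₁ = L d ρ₂) :
    ∃ (a : A) (b : Fin r → A), ∀ (d : ℕ) (ρ : Rp Γ d), Continuous ρ → ∀ m : Fin r → ℕ,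
      (∀ i, chr ρ (c i) = (d : ℂ) - 2 * (m i : ℂ)) → L d ρ = a ^ d * ∏ i, b i ^ m i := by
  choose x hN hxs using hx
  have hxc : ∀ i, Continuous (sg (x i)) := by
    intro i
    obtain ⟨N, hNo, hN1⟩ := hN i
    exact cont_of_open (sg (x i)) hNo (fun g hg => sg_one (hN1 g hg))
  refine ⟨L 1 1, fun i => L 1 (sg (x i)) * (L 1 1)⁻¹, fun d ρ hρ m hm => ?_⟩
  have R0 : RF L (fun _ : Γ => (1 : ℂ)) (L 1 1) :=
    ⟨1, 1, continuous_const, fun g => by rw [chr_one_rep]; simp, rfl⟩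
  have Rx : ∀ i, RF L (fun g => (((x i g : ℤˣ) : ℤ) : ℂ)) (L 1 (sg (x i))) := fun i =>
    ⟨1, sg (x i), hxc i, sg_chr (x i), rfl⟩
  have R1 : RF L (fun g => chr ρ g + ((∑ i, m i : ℕ) : ℂ) * 1) (L d ρ * L 1 1 ^ (∑ i, m i)) :=
    RF_add hmul ⟨d, ρ, hρ, fun _ => rfl, rfl⟩ (RF_nsmul hmul R0 _)
  have R2 : RF L (fun g => (d : ℂ) * 1 + ∑ i, (m i : ℂ) * (((x i g : ℤˣ) : ℤ) : ℂ))
      (L 1 1 ^ d * ∏ i, L 1 (sg (x i)) ^ m i) :=
    RF_add hmul (RF_nsmul hmul R0 d) (RF_sum hmul _ _ _ fun i _ => RF_nsmul hmul (Rx i) _)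
  have key := RF_eq heq ?_ ?_ R1 R2
  · have e1 : ∏ i, (L 1 (sg (x i)) * (L 1 1)⁻¹) ^ m i =
        (∏ i, L 1 (sg (x i)) ^ m i) * (L 1 1 ^ (∑ i, m i))⁻¹ := by
      rw [← Finset.prod_pow_eq_pow_sum, ← Finset.prod_inv_distrib, ← Finset.prod_mul_distrib]
      refine Finset.prod_congr rfl fun i _ => ?_
      rw [mul_pow, inv_pow]
    rw [e1, ← mul_assoc, ← key, mul_inv_cancel_right]
  · have e1 : chr ρ 1 = (d : ℂ) := chr_at_one ρ
    have e2 : ∀ i, (((x i 1 : ℤˣ) : ℤ) : ℂ) = 1 := fun i => by rw [map_one]; simp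
    show chr ρ 1 + ((∑ i, m i : ℕ) : ℂ) * 1 = (d : ℂ) * 1 + ∑ i, (m i : ℂ) * (((x i 1 : ℤˣ) : ℤ) : ℂ)
    have e3 : ∑ i, (m i : ℂ) * (((x i 1 : ℤˣ) : ℤ) : ℂ) = ∑ i, (m i : ℂ) :=
      Finset.sum_congr rfl fun i _ => by rw [e2 i, mul_one]
    rw [e1, e3]
    push_cast
    ring
  · intro s hs
    obtain ⟨j, ⟨g, hg⟩, huniq⟩ := hc.2 s hs
    have e1 : chr ρ s = (d : ℂ) - 2 * (m j : ℂ) := by
      rw [hg, chr_conj]; exact hm j
    have e2 : ∀ i, (((x i s : ℤˣ) : ℤ) : ℂ) = if i = j then -1 else 1 := by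
      intro i
      by_cases hij : i = j
      · rw [if_pos hij]
        have h1 : x i s = -1 := (hxs i s hs).2 ⟨g, by rw [hij]; exact hg⟩
        rw [h1]; simp
      · rw [if_neg hij]
        have h1 : x i s ≠ -1 := by
          intro h
          obtain ⟨g', hg'⟩ := (hxs i s hs).1 h
          exact hij (huniq i ⟨g', hg'⟩)
        rcases Int.units_eq_one_or (x i s) with h2 | h2
        · rw [h2]; simp
        · exact absurd h2 h1
    show chr ρ s + ((∑ i, m i : ℕ) : ℂ) * 1 = (d : ℂ) * 1 + ∑ i, (m i : ℂ) * (((x i s : ℤˣ) : ℤ) : ℂ)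
    have e3 : ∑ i, (m i : ℂ) * (((x i s : ℤˣ) : ℤ) : ℂ) = (∑ i, (m i : ℂ)) - 2 * (m j : ℂ) := by
      have e4 : ∀ i, (m i : ℂ) * (((x i s : ℤˣ) : ℤ) : ℂ) =
          (m i : ℂ) - (if i = j then 2 * (m i : ℂ) else 0) := by
        intro i
        rw [e2 i]
        by_cases hij : i = j
        · rw [if_pos hij, if_pos hij]; ring
        · rw [if_neg hij, if_neg hij]; ring
      rw [Finset.sum_congr rfl fun i _ => e4 i, Finset.sum_sub_distrib, Finset.sum_ite_eq']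
      simp
    rw [e1, e3]
    push_cast
    ring

end

end SB
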