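import Pool.Agent.Helper21.SBF.Base
import Pool.Agent.Helper21.SB.L5
import Mathlib.FieldTheory.Galois.Profinite

/-!
# SBF-6: finitely many classes of complex conjugations over a number field
-/

namespace SB

theorem finite_quot_M6 (F : IntermediateField ℚ Qb) (hF : FiniteDimensional ℚ F) :
    Finite (GQ ⧸ (F.fixingSubgroup : Subgroup GQ)) := by
  haveI := hF
  exact Subgroup.quotient_finite_of_isOpen (F.fixingSubgroup : Subgroup GQ) F.fixingSubgroup_isOpen

/-- SBF-6: the classes of complex conjugations (real places). -/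
theorem exists_rep (F : IntermediateField ℚ Qb) (hF : FiniteDimensional ℚ F) :
    ∃ (r : ℕ) (c : Fin r → GF F), IsRep (CF F) c := by
  classical
  haveI := finite_quot_M6 F hF
  let st : Setoid (CF F) :=
    { r := fun s s' => ∃ g : GF F, (s' : GF F) = g * s * g⁻¹
      iseqv :=
        { refl := fun s => ⟨1, by simp⟩
          symm := by
            rintro s s' ⟨g, hg⟩
            exact ⟨g⁻¹, by rw [hg]; group⟩
          trans := by
            rintro s s' s'' ⟨g, hg⟩ ⟨g', hg'⟩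
            exact ⟨g' * g, by rw [hg', hg]; group⟩ } }
  have hfin : Finite (Quotient st) := by
    by_cases hne : (CF F).Nonempty
    · obtain ⟨s₀, hs₀⟩ := hne
      have h1 : ∀ q : Quotient st, ∃ g : GQ, ((q.out : CF F) : GF F).1 = g * s₀.1 * g⁻¹ := fun q =>
        cc_one (show s₀.1 ∈ CC from hs₀) (show ((q.out : CF F) : GF F).1 ∈ CC from (q.out : CF F).2)
      choose γ hγ using h1
      refine Finite.of_injective (fun q => (QuotientGroup.mk (γ q)⁻¹ : GQ ⧸ (F.fixingSubgroup : Subgroup GQ))) ?_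
      intro q q' h
      have h2 : (γ q)⁻¹⁻¹ * (γ q')⁻¹ ∈ (F.fixingSubgroup : Subgroup GQ) := QuotientGroup.eq.1 h
      rw [inv_inv] at h2
      rw [← Quotient.out_eq q, ← Quotient.out_eq q']
      apply Quotient.sound
      refine ⟨⟨γ q * (γ q')⁻¹, h2⟩⁻¹, ?_⟩
      apply Subtype.ext
      change ((q'.out : CF F) : GF F).1 = (γ q * (γ q')⁻¹)⁻¹ * ((q.out : CF F) : GF F).1 *
        ((γ q * (γ q')⁻¹)⁻¹)⁻¹
      rw [hγ q', hγ q]
      group
    · have he : IsEmpty (CF F) := ⟨fun x => hne ⟨x.1, x.2⟩⟩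
      haveI : IsEmpty (Quotient st) := ⟨fun q => he.elim q.out⟩
      infer_instance
  obtain ⟨r, ⟨e⟩⟩ := Finite.exists_equiv_fin (Quotient st)
  refine ⟨r, fun i => ((e.symm i).out : CF F).1, fun i => ((e.symm i).out : CF F).2, fun s hs => ?_⟩
  refine ⟨e (Quotient.mk st ⟨s, hs⟩), ?_, ?_⟩
  · dsimp only
    rw [Equiv.symm_apply_apply]
    obtain ⟨g, hg⟩ := Quotient.exact (Quotient.out_eq (Quotient.mk st ⟨s, hs⟩))
    exact ⟨g, hg⟩
  · rintro j ⟨g, hg⟩
    have h1 : Quotient.mk st ((e.symm j).out : CF F) = Quotient.mk st ⟨s, hs⟩ := Quotient.sound ⟨g, hg⟩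
    rw [Quotient.out_eq] at h1
    rw [← h1, Equiv.apply_symm_apply]

end SB
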