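import Pool.Agent.Helper21.SBF.Base

/-!
# SBF: notation for the statement of the theorem on signature induction over a number field
-/

namespace SB

/-- The number fields in `Qb`. -/
structure NumF : Type where
  fld : IntermediateField ℚ Qb
  fin : FiniteDimensional ℚ fld

/-- The extensions of `F` in `Qb`. -/
abbrev ExtF (F : NumF) : Type := IntermediateField F.fld Qb

/-- The automorphisms of `Qb` fixing the elements of `A`. -/
noncomputable def FixSet (A : Set Qb) : Subgroup Gal := (fixingSubgroup GQ A : Subgroup GQ)

/-- The absolute Galois group of the number field `F`. -/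
def GalF (F : NumF) : Type := FixSet F.fld

noncomputable instance instGroupGalF (F : NumF) : Group (GalF F) := (FixSet F.fld).toGroup

noncomputable instance instTopGalF (F : NumF) : TopologicalSpace (GalF F) := instTopologicalSpaceSubtype

/-- The complex conjugations in it. -/
def ConjF (F : NumF) : Set (GalF F) := {c | c.1 ∈ Conj}

/-- The subgroup of the automorphisms fixing `K`. -/
noncomputable def GalOverF (F : NumF) (K : ExtF F) : Subgroup (GalF F) :=
  (FixSet K).subgroupOf (FixSet F.fld)

/-- `K` is a finite Galois extension of `F`. -/
def FinGalF (F : NumF) (K : ExtF F) : Prop :=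
  FinGal F.fld K

/-- The Galois group of `K` over `F` is solvable. -/
def SolGalF (F : NumF) (K : ExtF F) : Prop :=
  SolGal F.fld K

/-- The Galois group of `K` over `F` is nilpotent. -/
def NilGalF (F : NumF) (K : ExtF F) : Prop :=
  NilGal F.fld K

/-- Some finite Galois extension `K` of `F` has property `Q`, and `G_K` has property `P`. -/
def SomeGalF (F : NumF) (Q : ExtF F → Prop) (P : Subgroup (GalF F) → Prop) : Prop :=
  ∃ K : ExtF F, FinGalF F K ∧ Q K ∧ P (GalOverF F K)

theorem galOverF_eq (F : NumF) (K : ExtF F) : GalOverF F K = galIn F.fld K := by
  ext g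
  exact mem_fixingSubgroup_iff GQ

end SB
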