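import Pool.Agent.Helper21.SBF.M3
import Pool.Agent.Helper21.SBF.M1
import Pool.Agent.Helper21.SBF.M2
import Pool.Agent.Helper21.SBF.M5
import Pool.Agent.Helper21.SBF.M6

/-!
# SBF-Z: signature induction over a number field
-/

namespace SB

section
variable {Γ : Type} [Group Γ]

/-- The linear representation attached to a matrix representation. -/
noncomputable def glrep {d : ℕ} (ρ : Rp Γ d) : Γ →* ((Fin d → ℂ) →ₗ[ℂ] (Fin d → ℂ)) where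
  toFun g := Matrix.toLin' (ρ g : Matrix (Fin d) (Fin d) ℂ)
  map_one' := by simp [Matrix.toLin'_one, Module.End.one_eq_id]
  map_mul' a b := by
    simp [Matrix.toLin'_mul, Module.End.mul_eq_comp]

theorem trace_glrep {d : ℕ} (ρ : Rp Γ d) (g : Γ) : LinearMap.trace ℂ (Fin d → ℂ) (glrep ρ g) = chr ρ g := by
  simp [glrep, chr, Matrix.trace_toLin'_eq]

theorem glrep_one {d : ℕ} (ρ : Rp Γ d) (g : Γ) (h : ρ g = 1) : glrep ρ g = 1 := by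
  show Matrix.toLin' (ρ g : Matrix (Fin d) (Fin d) ℂ) = 1
  rw [h]
  simp [Matrix.toLin'_one, Module.End.one_eq_id]

theorem decomp_of_fam {D : Sys Γ} {M : Subgroup Γ} (hM : M ∈ D.N) {P P' : Subgroup Γ → Prop}
    (hP : ∀ U, P U → P' U) {d : ℕ} (ρ₁ ρ₂ : Rp Γ d) (h : Fam D P (fun g => chr ρ₁ g - chr ρ₂ g)) :
    ∃ M' ∈ D.N, M' ≤ M ∧ Decomp D.S M' P' ρ₁ ρ₂ := by
  obtain ⟨m, n, U, χ, χ', hPU, h1, h2, h3, h4⟩ := h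
  choose M1 hM1 hM1U hM1χ using h1
  choose M2 hM2 hM2U hM2χ using h2
  obtain ⟨M', hM', hle, hcom⟩ := exists_common D hM (fun i => M1 i ⊓ M2 i) fun i => D.inf _ (hM1 i) _ (hM2 i)
  exact ⟨M', hM', hle, m, n, U, χ, χ', fun i => ⟨hP _ (hPU i), (hcom i).trans (inf_le_left.trans (hM1U i)),
    fun g hg hgN => hM1χ i g hg (hcom i hgN).1, fun g hg hgN => hM2χ i g hg (hcom i hgN).2,
    fun c hc hS => h3 i c hc hS⟩, h4⟩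

end

theorem gen_one (F : IntermediateField ℚ Qb) (hF : FiniteDimensional ℚ F) (D : Sys (GF F)) (hS : D.S = CF F)
    (hN : D.N ⊆ NF F) {d : ℕ} (ρ₁ ρ₂ : Rp (GF F) d) (h : EqAt (CF F) ρ₁ ρ₂) (hM : ρ₁.ker ⊓ ρ₂.ker ∈ D.N) :
    ∃ M ∈ D.N, Decomp (CF F) M (fun _ => True) ρ₁ ρ₂ := by
  have hfam := famGeneral D hM (glrep ρ₁) (glrep ρ₂) (fun g hg => glrep_one ρ₁ g hg.1)
    (fun g hg => glrep_one ρ₂ g hg.2) rfl (fun s hs => by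
      rw [trace_glrep, trace_glrep]
      exact h.2.2 s (hS ▸ hs))
  simp only [trace_glrep] at hfam
  obtain ⟨M', hM', -, hdec⟩ := decomp_of_fam hM (fun _ h => h) ρ₁ ρ₂ hfam
  exact ⟨M', hM', hS ▸ hdec⟩

theorem f_one (F : IntermediateField ℚ Qb) (hF : FiniteDimensional ℚ F) {d : ℕ} (ρ₁ ρ₂ : Rp (GF F) d)
    (h : EqAt (CF F) ρ₁ ρ₂) :
    ∃ K : IntermediateField F Qb, FinGal F K ∧ (SolIm ρ₁ → SolIm ρ₂ → SolGal F K) ∧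
      (NilIm ρ₁ → NilIm ρ₂ → NilGal F K) ∧ Decomp (CF F) (galIn F K) (fun _ => True) ρ₁ ρ₂ := by
  obtain ⟨⟨D, hDS, hDN⟩, ⟨D₁, hDS₁, hDN₁⟩, ⟨D₂, hDS₂, hDN₂⟩⟩ := exists_sysF F hF
  have hk : ρ₁.ker ⊓ ρ₂.ker ∈ NF F := by
    have h1 := ker_F F hF ρ₁ h.1
    have h2 := ker_F F hF ρ₂ h.2.1
    rw [← hDN] at h1 h2 ⊢
    exact D.inf _ h1 _ h2
  obtain ⟨hsol, hnil⟩ := quot_F F ρ₁ ρ₂ hk
  by_cases hn : NilIm ρ₁ ∧ NilIm ρ₂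
  · obtain ⟨M, hM, hdec⟩ := gen_one F hF D₂ hDS₂ (by rw [hDN₂]; exact fun M hM => hM.1) ρ₁ ρ₂ h
      (by rw [hDN₂]; exact hnil hn.1 hn.2)
    rw [hDN₂] at hM
    obtain ⟨K, hK, hMK, h1, h2⟩ := field_of F hF hM.1
    have hN := h2 hM
    refine ⟨K, hK, fun _ _ => ?_, fun _ _ => hN, hMK ▸ hdec⟩
    have : Group.IsNilpotent (K ≃ₐ[F] K) := hN
    exact (inferInstance : Group.IsSolvable (K ≃ₐ[F] K))
  · by_cases hs : SolIm ρ₁ ∧ SolIm ρ₂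
    · obtain ⟨M, hM, hdec⟩ := gen_one F hF D₁ hDS₁ (by rw [hDN₁]; exact fun M hM => hM.1) ρ₁ ρ₂ h
        (by rw [hDN₁]; exact hsol hs.1 hs.2)
      rw [hDN₁] at hM
      obtain ⟨K, hK, hMK, h1, h2⟩ := field_of F hF hM.1
      exact ⟨K, hK, fun _ _ => h1 hM, fun a b => absurd ⟨a, b⟩ hn, hMK ▸ hdec⟩
    · obtain ⟨M, hM, hdec⟩ := gen_one F hF D hDS (by rw [hDN]) ρ₁ ρ₂ h (by rw [hDN]; exact hk)
      rw [hDN] at hM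
      obtain ⟨K, hK, hMK, -, -⟩ := field_of F hF hM
      exact ⟨K, hK, fun a b => absurd ⟨a, b⟩ hs, fun a b => absurd ⟨a, b⟩ hn, hMK ▸ hdec⟩

theorem f_two (F : IntermediateField ℚ Qb) (hF : FiniteDimensional ℚ F) {d : ℕ} (ρ₁ ρ₂ : Rp (GF F) d)
    (h : EqAt (CF F) ρ₁ ρ₂) (C : Subgroup (GF F)) (n : ℕ) (hC : C.Normal) (hidx : C.index = 2 ^ n)
    (h1 : AbOn C ρ₁) (h2 : AbOn C ρ₂) :
    ∃ K : IntermediateField F Qb, FinGal F K ∧ Decomp (CF F) (galIn F K) TwoSteps ρ₁ ρ₂ := by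
  obtain ⟨⟨D, hDS, hDN⟩, -, -⟩ := exists_sysF F hF
  have hM : ρ₁.ker ⊓ ρ₂.ker ∈ NF F := by
    have h1 := ker_F F hF ρ₁ h.1
    have h2 := ker_F F hF ρ₂ h.2.1
    rw [← hDN] at h1 h2 ⊢
    exact D.inf _ h1 _ h2
  have hMn : (ρ₁.ker ⊓ ρ₂.ker).Normal := hM.1
  have hab2 : ∀ a ∈ C ⊔ (ρ₁.ker ⊓ ρ₂.ker), ∀ b ∈ C ⊔ (ρ₁.ker ⊓ ρ₂.ker),
      ρ₁ a * ρ₁ b = ρ₁ b * ρ₁ a ∧ ρ₂ a * ρ₂ b = ρ₂ b * ρ₂ a := by
    intro a ha b hb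
    obtain ⟨a1, ha1, a2, ha2, rfl⟩ := Subgroup.mem_sup_of_normal_right.1 ha
    obtain ⟨b1, hb1, b2, hb2, rfl⟩ := Subgroup.mem_sup_of_normal_right.1 hb
    have e1 : ρ₁ a2 = 1 := ha2.1
    have e2 : ρ₂ a2 = 1 := ha2.2
    have e3 : ρ₁ b2 = 1 := hb2.1
    have e4 : ρ₂ b2 = 1 := hb2.2
    simp only [map_mul, e1, e2, e3, e4, mul_one]
    exact ⟨h1 a1 ha1 b1 hb1, h2 a1 ha1 b1 hb1⟩
  have hE : AbExt 2 (ρ₁.ker ⊓ ρ₂.ker) (C ⊔ (ρ₁.ker ⊓ ρ₂.ker)) ⊤ := by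
    refine ⟨le_sup_right, le_top, fun u _ c hc => ?_, fun a ha b hb => ?_, ?_⟩
    · exact (inferInstance : (C ⊔ (ρ₁.ker ⊓ ρ₂.ker)).Normal).conj_mem c hc u
    · obtain ⟨e1, e2⟩ := hab2 a ha b hb
      constructor
      · show ρ₁ _ = 1
        rw [map_mul, map_mul, map_mul, map_inv, map_inv, e1]
        group
      · show ρ₂ _ = 1
        rw [map_mul, map_mul, map_mul, map_inv, map_inv, e2]
        group
    · rw [Subgroup.relIndex_top_right]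
      have hd : (C ⊔ (ρ₁.ker ⊓ ρ₂.ker)).index ∣ 2 ^ n := by
        rw [← hidx]
        exact Subgroup.index_dvd_of_le le_sup_left
      obtain ⟨m, -, hm⟩ := (Nat.dvd_prime_pow Nat.prime_two).1 hd
      exact ⟨m, hm⟩
  have hM' : (ρ₁.ker ⊓ ρ₂.ker) ∈ D.N := by rw [hDN]; exact hM
  have hfam := famTwo D hM' hE TwoSteps (fun W U t h hU => TwoSteps.step hU h.le (relIndex_of_isStep_two h))
    TwoSteps.top (glrep ρ₁) (glrep ρ₂) (fun g hg => glrep_one ρ₁ g hg.1) (fun g hg => glrep_one ρ₂ g hg.2) rfl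
    (fun c hcc => by rw [trace_glrep, trace_glrep]; exact h.2.2 c (hDS ▸ hcc))
  simp only [trace_glrep] at hfam
  obtain ⟨M₂, hM₂, -, hdec⟩ := decomp_of_fam hM' (fun _ h => h) ρ₁ ρ₂ hfam
  rw [hDN] at hM₂
  obtain ⟨K, hK, hMK, -, -⟩ := field_of F hF hM₂
  rw [hDS, hMK] at hdec
  exact ⟨K, hK, hdec⟩

theorem f_three (F : IntermediateField ℚ Qb) (hF : FiniteDimensional ℚ F) {A : Type} [CommGroup A]
    (L : ∀ d : ℕ, Rp (GF F) d → A) (hmul : Mult L) (hsig : SigInv (CF F) L) {d : ℕ} (ρ₁ ρ₂ : Rp (GF F) d)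
    (h : EqAt (CF F) ρ₁ ρ₂) : L d ρ₁ = L d ρ₂ := by
  obtain ⟨⟨D, hDS, hDN⟩, -, -⟩ := exists_sysF F hF
  have hM : ρ₁.ker ⊓ ρ₂.ker ∈ NF F := by
    have h1 := ker_F F hF ρ₁ h.1
    have h2 := ker_F F hF ρ₂ h.2.1
    rw [← hDN] at h1 h2 ⊢
    exact D.inf _ h1 _ h2
  obtain ⟨M, hM, hdec⟩ := gen_one F hF D hDS (by rw [hDN]) ρ₁ ρ₂ h (by rw [hDN]; exact hM)
  rw [hDN] at hM
  exact inv_gen (CF F) L hmul hsig hM.1 (fin_F F hF hM) hM.2 ρ₁ ρ₂ h.1 h.2.1 hdec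

theorem cf_sq (F : IntermediateField ℚ Qb) : ∀ s ∈ CF F, s * s = 1 := fun _ hs => Subtype.ext (cc_sq hs)

theorem f_four (F : IntermediateField ℚ Qb) (hF : FiniteDimensional ℚ F) {r : ℕ} (c : Fin r → GF F)
    (hc : IsRep (CF F) c) {A : Type} [CommGroup A] (L : ∀ d : ℕ, Rp (GF F) d → A) (hmul : Mult L)
    (hsig : SigInv (CF F) L) :
    ∃ (a : A) (b : Fin r → A), ∀ (d : ℕ) (ρ : Rp (GF F) d), Continuous ρ → ∀ m : Fin r → ℕ,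
      (∀ i, chr ρ (c i) = (d : ℂ) - 2 * (m i : ℂ)) → L d ρ = a ^ d * ∏ i, b i ^ m i := by
  refine factor_gen (CF F) c hc (cf_sq F) (fun i => ?_) L hmul
    (fun d ρ₁ ρ₂ h => f_three F hF L hmul hsig ρ₁ ρ₂ h)
  obtain ⟨x, ⟨M, hM, hx1⟩, hx2⟩ := nt_F F hF {s | ∃ g, s = g * c i * g⁻¹} (by
    rintro _ ⟨g, rfl⟩
    have h1 : (c i : GQ) ∈ CC := hc.1 i
    exact cc_conj h1 (g : GQ)) (by
    rintro _ ⟨g, rfl⟩ u
    exact ⟨u * g, by group⟩)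
  exact ⟨x, ⟨M, hM.2, hx1⟩, hx2⟩

end SB
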